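import Pool.Agent.X41.NS.Local

set_option autoImplicit false

/-!
# Stability of the non-symmetric `L^p` Mahler inequality for large `p`

After `Pool/Agent/TH692/LOC_LOCAL.lean` and `LOC_FINAL.lean`.
-/

open MeasureTheory Set Filter Module
open scoped ENNReal Topology Matrix

namespace Pool.Agent.X41.NS

open Pool.Agent.H131R5.LM Pool.Agent.H131R5.LC Pool.Agent.W679.B
open Pool.Agent.W678.T3 (bc ZK bc_castSucc bc_sum bc_nonneg mem_Sn_bc)
open Pool.Agent.TH649.LOC
open H801NS H801NS.TENS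

/-- all simplices which contain `K` have volume greater than `(1 + t) |K|` -/
def Far {n : ℕ} (t : ℝ) (K : Set (Fin n → ℝ)) : Prop :=
  ∀ Q : Finset (Fin n → ℝ), Q.card ≤ n + 1 → K ⊆ convexHull ℝ (Q : Set (Fin n → ℝ)) →
    ENNReal.ofReal (1 + t) * volume K < volume (convexHull ℝ (Q : Set (Fin n → ℝ)))

lemma vol_affine {n : ℕ} (M : (Fin n → ℝ) ≃ₗ[ℝ] (Fin n → ℝ)) (x0 : Fin n → ℝ)
    (S : Set (Fin n → ℝ)) :
    volume ((fun c => x0 + M c) '' S) =
      ENNReal.ofReal |LinearMap.det (M : (Fin n → ℝ) →ₗ[ℝ] (Fin n → ℝ))| * volume S := by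
  have h1 : (fun c => x0 + M c) '' S = (fun c => x0 + c) '' (M '' S) := by
    rw [image_image]
  have h2 : volume (M '' S) = ENNReal.ofReal
      |LinearMap.det (M : (Fin n → ℝ) →ₗ[ℝ] (Fin n → ℝ))| * volume S :=
    Measure.addHaar_image_linearMap (μ := (volume : Measure (Fin n → ℝ)))
      (M : (Fin n → ℝ) →ₗ[ℝ] (Fin n → ℝ)) S
  rw [h1, image_add_left, measure_preimage_add, h2]

theorem locQ {m : ℕ} (θ : ℝ) (h : ∃ ε0 p0 c : ℝ, 0 < ε0 ∧ 1 ≤ p0 ∧ 0 < c ∧ ∀ p : ℝ, p0 ≤ p →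
      ∀ K : Set (Fin (m + 1) → ℝ), NB K → K ⊆ Sn (m + 1) →
      (∀ x ∈ Sn (m + 1), gauge K x ≤ 1 + ε0) →
      (∀ i : Fin (m + 2), R (Equiv.swap 0 i) (jj 0) ∈ K) →
      ∀ t : ℝ, 0 ≤ t → t ≤ 1 → (1 + t) * (volume K).toReal < VS (m + 1) →
      ∀ z : Fin (m + 1) → ℝ, Sur θ c p t (Mp p (Sn (m + 1))) (Mp p ((fun x => x - z) '' K))) :
    ∃ δ p0 c : ℝ, 0 < δ ∧ 1 ≤ p0 ∧ 0 < c ∧ ∀ p : ℝ, p0 ≤ p →
      ∀ K : Set (Fin (m + 1) → ℝ), IsCompact K → Convex ℝ K → (interior K).Nonempty →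
      ∀ Q : Finset (Fin (m + 1) → ℝ), Q.card ≤ m + 1 + 1 →
        K ⊆ convexHull ℝ (Q : Set (Fin (m + 1) → ℝ)) →
        volume (convexHull ℝ (Q : Set (Fin (m + 1) → ℝ))) ≤ ENNReal.ofReal (1 + δ) * volume K →
      ∀ t : ℝ, 0 ≤ t → t ≤ 1 → Far t K → Sur θ c p t (Mp p (Sn (m + 1))) (Mp p K) := by
  obtain ⟨ε, p0, c, hε, hp0, hc0, hloc⟩ := h
  obtain ⟨δ', hδ', hclose⟩ := close (m + 1) (ε := ε / (1 + ε)) (by positivity)
    (by rw [div_lt_one (by positivity)]; linarith)
  have hV := VS_pos (m + 1)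
  set V := VS (m + 1) with hVdef
  refine ⟨δ' / V, p0, c, by positivity, hp0, hc0, ?_⟩
  intro p hpp
  have hp : 0 < p := by linarith
  set δ := δ' / V with hδ
  have hδ0 : 0 < δ := by positivity
  intro K hKc hKv hKi Q hQ hKQ hvol t ht0 ht1 hfar
  have hQi : (interior (convexHull ℝ (Q : Set (Fin (m + 1) → ℝ)))).Nonempty :=
    hKi.mono (interior_mono hKQ)
  obtain ⟨M, x0, hM⟩ := simplex_param Q hQ hQi
  have hκ : 0 < (volume K).toReal := vol_pos' hKc hKi
  have hKfin : volume K ≠ ⊤ := hKc.measure_lt_top.ne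
  -- the volume of the hull of `Q`
  set dM : ℝ := |LinearMap.det (M : (Fin (m + 1) → ℝ) →ₗ[ℝ] (Fin (m + 1) → ℝ))| with hdM
  have hdM0 : 0 < dM := abs_pos.2 (LinearEquiv.isUnit_det' M).ne_zero
  have hvQ : (volume (convexHull ℝ (Q : Set (Fin (m + 1) → ℝ)))).toReal = dM * V := by
    rw [hM, vol_affine, ENNReal.toReal_mul, ENNReal.toReal_ofReal hdM0.le]
    rfl
  have hvol' : dM * V ≤ (1 + δ) * (volume K).toReal := by
    rw [← hvQ]
    have h1 := ENNReal.toReal_mono (ENNReal.mul_ne_top ENNReal.ofReal_ne_top hKfin) hvol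
    rwa [ENNReal.toReal_mul, ENNReal.toReal_ofReal (by positivity)] at h1
  -- the extremal position
  obtain ⟨A, b, hA1, hA2⟩ := exists_extremal hKi
  set Ml : (Fin (m + 1) → ℝ) →L[ℝ] (Fin (m + 1) → ℝ) :=
    LinearMap.toContinuousLinearMap (M.symm : (Fin (m + 1) → ℝ) →ₗ[ℝ] (Fin (m + 1) → ℝ)) with hMl
  have hMldet : |Ml.det| = dM⁻¹ := by
    have h1 : Ml.det = LinearMap.det (M.symm : (Fin (m + 1) → ℝ) →ₗ[ℝ] (Fin (m + 1) → ℝ)) := rfl
    have h2 := LinearEquiv.det_mul_det_symm M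
    have h3 : LinearMap.det (M.symm : (Fin (m + 1) → ℝ) →ₗ[ℝ] (Fin (m + 1) → ℝ)) =
        (LinearMap.det (M : (Fin (m + 1) → ℝ) →ₗ[ℝ] (Fin (m + 1) → ℝ)))⁻¹ := by
      exact eq_inv_of_mul_eq_one_right h2
    rw [h1, h3, abs_inv]
  have hMin : ∀ x ∈ K, Ml x + -(M.symm x0) ∈ Sn (m + 1) := by
    intro x hx
    have h1 := hKQ hx
    rw [hM] at h1
    obtain ⟨c, hc, rfl⟩ := h1
    have h2 : Ml (x0 + M c) + -(M.symm x0) = c := by
      change M.symm (x0 + M c) + -(M.symm x0) = c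
      rw [map_add, M.symm_apply_apply]; abel
    simp only
    rw [h2]
    exact hc
  have hdA : dM⁻¹ ≤ |A.det| := by
    rw [← hMldet]; exact hA2 Ml _ hMin
  have hdA0 : 0 < |A.det| := lt_of_lt_of_le (inv_pos.2 hdM0) hdA
  set Al : (Fin (m + 1) → ℝ) →ₗ[ℝ] (Fin (m + 1) → ℝ) := A.toLinearMap with hAl
  have hAldet : LinearMap.det Al = A.det := rfl
  have hAne : LinearMap.det Al ≠ 0 := by rw [hAldet]; exact abs_pos.1 hdA0
  set e : (Fin (m + 1) → ℝ) ≃ₗ[ℝ] (Fin (m + 1) → ℝ) := LinearMap.equivOfDetNeZero Al hAne with he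
  have hecoe : (e : (Fin (m + 1) → ℝ) →ₗ[ℝ] (Fin (m + 1) → ℝ)) = Al := by
    ext x : 1
    rfl
  have heapp : ∀ x, e x = A x := fun x => rfl
  set K' : Set (Fin (m + 1) → ℝ) := (fun x => x - -b) '' (e '' K) with hK'
  have hK'mem : ∀ y, y ∈ K' ↔ ∃ x ∈ K, A x + b = y := by
    intro y
    rw [hK', image_image]
    constructor
    · rintro ⟨x, hx, rfl⟩; exact ⟨x, hx, by simp only [heapp, sub_neg_eq_add]⟩
    · rintro ⟨x, hx, rfl⟩; exact ⟨x, hx, by simp only [heapp, sub_neg_eq_add]⟩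
  have heKc : IsCompact (e '' K) := hKc.image (LinearMap.continuous_of_finiteDimensional _)
  have hK'c : IsCompact K' := heKc.image (by fun_prop)
  have hK'v : Convex ℝ K' := by
    have h1 : Convex ℝ (e '' K) := hKv.linear_image e.toLinearMap
    have h2 := h1.translate b
    have h3 : (fun z => b + z) '' (e '' K) = K' := by
      rw [hK']
      refine image_congr fun z _ => ?_
      abel
    rwa [h3] at h2
  have hK'S : K' ⊆ Sn (m + 1) := by
    intro y hy
    obtain ⟨x, hx, rfl⟩ := (hK'mem y).1 hy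
    exact hA1 x hx
  have hE : Ext K' := by
    intro A2 b2 h
    set A3 : (Fin (m + 1) → ℝ) →L[ℝ] (Fin (m + 1) → ℝ) :=
      LinearMap.toContinuousLinearMap (A2 ∘ₗ Al) with hA3
    have h1 := hA2 A3 (A2 b + b2) (fun x hx => by
      have h2 := h (A x + b) ((hK'mem _).2 ⟨x, hx, rfl⟩)
      have h3 : A3 x + (A2 b + b2) = A2 (A x + b) + b2 := by
        change A2 (A x) + (A2 b + b2) = _
        rw [map_add]; abel
      rw [h3]; exact h2)
    have h4 : A3.det = LinearMap.det A2 * A.det := by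
      change LinearMap.det (A2 ∘ₗ Al) = _
      rw [LinearMap.det_comp, hAldet]
    rw [h4, abs_mul] at h1
    exact le_of_mul_le_mul_right (by rw [one_mul]; exact h1) hdA0
  -- the volume of the new body
  have hvK' : (volume K').toReal = |A.det| * (volume K).toReal := by
    rw [hK', vol_sub]
    have h2 : volume (e '' K) = ENNReal.ofReal |A.det| * volume K :=
      Measure.addHaar_image_linearMap (μ := (volume : Measure (Fin (m + 1) → ℝ))) Al K
    rw [h2, ENNReal.toReal_mul, ENNReal.toReal_ofReal (abs_nonneg _)]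
  have hVK' : V ≤ (1 + δ) * (volume K').toReal := by
    rw [hvK']
    have h1 : V = dM⁻¹ * (dM * V) := by field_simp
    rw [h1]
    calc dM⁻¹ * (dM * V) ≤ |A.det| * ((1 + δ) * (volume K).toReal) := by
          apply mul_le_mul hdA hvol' (by positivity) (by positivity)
      _ = _ := by ring
  have hdiff : (volume (Sn (m + 1) \ K')).toReal = V - (volume K').toReal :=
    measureReal_sdiff (μ := volume) hK'S hK'c.measurableSet
      (NB_Sn (n := m + 1)).comp.measure_lt_top.ne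
  have hK'V : (volume K').toReal ≤ V := ENNReal.toReal_mono
    (NB_Sn (n := m + 1)).comp.measure_lt_top.ne (measure_mono hK'S)
  have hsmall : (volume (Sn (m + 1) \ K')).toReal < δ' := by
    have h1 : δ * V = δ' := by rw [hδ]; field_simp
    have h2 : 0 < (volume K').toReal := by rw [hvK']; positivity
    have h3 : (volume K').toReal < V ∨ (volume K').toReal = V := lt_or_eq_of_le hK'V
    rw [hdiff]
    rcases h3 with h3 | h3
    · have h4 : V - (volume K').toReal ≤ δ * (volume K').toReal := by linarith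
      have h5 : δ * (volume K').toReal < δ * V := by
        apply mul_lt_mul_of_pos_left h3 hδ0
      linarith
    · rw [h3, sub_self]; exact hδ'
  have hSLK := hclose K' hK'c hK'v hK'S hsmall
  have hL : 1 - ε / (1 + ε) = (1 + ε)⁻¹ := by field_simp; ring
  rw [hL] at hSLK
  have hL0 : 0 < (1 + ε)⁻¹ := by positivity
  have hNB : NB K' := ⟨hK'c, hK'v, interior_mono hSLK (zero_int_SL hL0)⟩
  have hg : ∀ x ∈ Sn (m + 1), gauge K' x ≤ 1 + ε := by
    intro x hx
    apply gauge_le_of_mem (by positivity)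
    refine ⟨(1 + ε)⁻¹ • x, hSLK ((SL_smul hL0 x).2 hx), ?_⟩
    simp only
    rw [smul_smul, mul_inv_cancel₀ (by positivity), one_smul]
  have hcen : ∀ i : Fin (m + 2), R (Equiv.swap 0 i) (jj 0) ∈ K' :=
    fun i => facet_centroids hK'c.isClosed hK'v hK'S hE i
  -- the volume of the simplex around `K`
  have htv : (1 + t) * (volume K').toReal < VS (m + 1) := by
    obtain ⟨T, hT, hTe⟩ := simplex_hull (n := m + 1) e.symm (-(e.symm b))
    have h1 : K ⊆ convexHull ℝ (T : Set (Fin (m + 1) → ℝ)) := by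
      rw [← hTe]
      intro x hx
      refine ⟨A x + b, hA1 x hx, ?_⟩
      have h2 : e.symm (A x + b) = x + e.symm b := by
        rw [map_add, ← heapp, e.symm_apply_apply]
      simp only [h2]
      abel
    have h2 := hfar T hT h1
    rw [← hTe, vol_affine] at h2
    have h3 := (ENNReal.toReal_lt_toReal (ENNReal.mul_ne_top ENNReal.ofReal_ne_top hKfin)
      (ENNReal.mul_ne_top ENNReal.ofReal_ne_top
        (NB_Sn (n := m + 1)).comp.measure_lt_top.ne)).2 h2
    rw [ENNReal.toReal_mul, ENNReal.toReal_mul, ENNReal.toReal_ofReal (by positivity),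
      ENNReal.toReal_ofReal (abs_nonneg _)] at h3
    have h4 : |LinearMap.det (e.symm : (Fin (m + 1) → ℝ) →ₗ[ℝ] (Fin (m + 1) → ℝ))| =
        |A.det|⁻¹ := by
      have h5 := LinearEquiv.det_mul_det_symm e
      rw [hecoe, hAldet] at h5
      rw [eq_inv_of_mul_eq_one_right h5, abs_inv]
    rw [h4] at h3
    have h6 : (volume (Sn (m + 1))).toReal = VS (m + 1) := rfl
    rw [h6] at h3
    rw [hvK']
    have h7 := mul_lt_mul_of_pos_left h3 hdA0
    rw [← mul_assoc, ← mul_assoc, mul_inv_cancel₀ hdA0.ne', one_mul] at h7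
    linarith
  have hmain := hloc p hpp K' hNB hK'S hg hcen t ht0 ht1 htv b
  -- back to `K`
  have hback : (fun x => x - b) '' K' = e '' K := by
    rw [hK', image_image]
    simp
  have hMpK : Mp p ((fun x => x - b) '' K') = Mp p K := by
    rw [hback]; exact Mp_image hp e hKc hKi
  rwa [hMpK] at hmain

/-- **Stability of the non-symmetric `L^p` Mahler inequality for large `p`.** -/
theorem mainQ (n : ℕ) (hn : 1 ≤ n) (θ : ℝ) (hθ : 0 < θ) : ∃ p0 c : ℝ, 1 ≤ p0 ∧ 0 < c ∧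
    ∀ p : ℝ, p0 ≤ p → ∀ K : Set (Fin n → ℝ), IsCompact K → Convex ℝ K → (interior K).Nonempty →
      ∀ t : ℝ, 0 ≤ t → t ≤ 1 → Far t K → Sur θ c p t (Mp p (Sn n)) (Mp p K) := by
  obtain ⟨m, rfl⟩ : ∃ m, n = m + 1 := ⟨n - 1, by omega⟩
  rcases Nat.eq_zero_or_pos m with rfl | hm
  · refine ⟨1, 1, le_rfl, one_pos, fun p hp K hKc hKv hKi t ht0 ht1 hfar => ?_⟩
    exfalso
    obtain ⟨Q, hQ, hKQ⟩ := dim_one hKc hKv hKi
    have h1 := hfar Q hQ hKQ.le
    rw [← hKQ] at h1
    have h2 : volume K ≤ ENNReal.ofReal (1 + t) * volume K := by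
      have h3 : (1 : ℝ≥0∞) ≤ ENNReal.ofReal (1 + t) := by
        rw [ENNReal.one_le_ofReal]
        linarith
      calc volume K = 1 * volume K := (one_mul _).symm
        _ ≤ _ := by gcongr
    exact absurd h1 (not_lt.2 h2)
  · have hN := nfT (n := m + 1) (by omega)
    have hG := gainT (n := m + 1) (by omega)
    have hM := fun K (hK : NB K) => Pool.Agent.TH537.EQ.s_mahler (n := m + 1) K hK
    have hE := fun K (hK : NB K) => Pool.Agent.TH537.EQ.s_eq' (n := m + 1) K hK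
    have hZ := Pool.Agent.TH928.LOC_ZBOX.zb (m + 1) hn
    have hW : S_W m := Pool.Agent.TH859.LOC_JW.wlow hZ hN
    have hI : S_lin m := Pool.Agent.TH761.LOC_LIN.lin hm hW (tri m)
    have hII := reg2Q hG (Pool.Agent.TH713.LOC_LOSS.loss hm)
    obtain ⟨δ, p1, c, hδ, hp1, hc, hL⟩ := locQ θ (normQ hI hII θ hθ)
    obtain ⟨κ, hκ, hgap⟩ := Pool.Agent.TH111.LOC_GAP.gap hn hM hE δ hδ
    set κ' : ℝ := min κ 1 with hκ'
    have hκ'0 : 0 < κ' := lt_min hκ one_pos
    have hκ'κ : κ' ≤ κ := min_le_left _ _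
    have hκ'1 : κ' ≤ 1 := min_le_right _ _
    obtain ⟨p2, hp2, hN⟩ := hN (κ' / 8) (by positivity)
    refine ⟨max p1 p2, min c (κ' / 8), hp1.trans (le_max_left _ _), by positivity,
      fun p hp K hKc hKv hKi t ht0 ht1 hfar => ?_⟩
    have hp1' : p1 ≤ p := le_trans (le_max_left _ _) hp
    have hp2' : p2 ≤ p := le_trans (le_max_right _ _) hp
    have hp1'' : 1 ≤ p := hp1.trans hp1'
    have hp0 : 0 < p := by linarith
    have hcc : min c (κ' / 8) ≤ c := min_le_left _ _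
    have hck : min c (κ' / 8) ≤ κ' / 8 := min_le_right _ _
    have hc0 : 0 < min c (κ' / 8) := by positivity
    by_cases h0 : (0 : Fin (m + 1) → ℝ) ∈ interior K
    · have hNB : NB K := ⟨hKc, hKv, h0⟩
      by_cases hQ : ∃ Q : Finset (Fin (m + 1) → ℝ), Q.card ≤ m + 1 + 1 ∧
          K ⊆ convexHull ℝ (Q : Set (Fin (m + 1) → ℝ)) ∧
          volume (convexHull ℝ (Q : Set (Fin (m + 1) → ℝ))) ≤ ENNReal.ofReal (1 + δ) * volume K
      · obtain ⟨Q, hQ1, hQ2, hQ3⟩ := hQ
        obtain ⟨h1, h2⟩ := hL p hp1' K hKc hKv hKi Q hQ1 hQ2 hQ3 t ht0 ht1 hfar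
        refine ⟨le_trans ?_ h1, fun h => le_trans ?_ (h2 h)⟩
        · gcongr
        · gcongr
      · have hgK := hgap K hNB (fun Q h1 h2 => by
          by_contra hcon
          exact hQ ⟨Q, h1, h2, not_lt.1 hcon⟩)
        have hlow := Pool.Agent.TH692.LOC_FINAL.Mp_lower hn hp0 hNB hκ hgK
        have hup := (Pool.Agent.TH692.LOC_FINAL.Mp_upper (n := m + 1) hp0 (κ := κ' / 4)
          (by positivity) (by
            have := hN p hp2'
            have e1 : κ' / 4 / 2 = κ' / 8 := by ring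
            rw [e1]
            exact this)).le
        have key : ∀ x : ℝ, 0 ≤ x → x ≤ κ' / 8 →
            Mp p (Sn (m + 1)) * ENNReal.ofReal (1 + x) ≤ Mp p K := by
          intro x hx0 hx
          refine le_trans ?_ hlow
          refine (mul_le_mul_left hup _).trans ?_
          rw [← ENNReal.ofReal_mul (by positivity)]
          apply ENNReal.ofReal_le_ofReal
          rw [mul_assoc]
          gcongr
          nlinarith
        have h8 : min c (κ' / 8) * t ≤ κ' / 8 := by nlinarith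
        refine ⟨key _ (by positivity) ?_, fun _ => key _ (by positivity) h8⟩
        exact (div_le_self (by positivity) hp1'').trans h8
    · rw [Mp_top hKv hKc hKi h0 hp0]
      exact ⟨le_top, fun _ => le_top⟩

end Pool.Agent.X41.NS
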