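import Pool.Agent.X41.NS.Reg2

set_option autoImplicit false

/-!
# Stability near the simplex

After `Pool/Agent/TH692/LOC_LOCAL.lean`.
-/

open MeasureTheory Set Filter Module
open scoped ENNReal Topology Matrix Pointwise

namespace Pool.Agent.X41.NS

open Pool.Agent.H131R5.LM Pool.Agent.H131R5.LC Pool.Agent.W679.B
open Pool.Agent.W678.T3 (bc ZK bc_castSucc bc_sum bc_nonneg mem_Sn_bc)
open Pool.Agent.TH649.LOC
open Pool.Agent.TH692.LOC_LOCAL (gauge_le_max vx_mem)
open H801NS H801NS.TENS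

/-- the surplus `G p t` at the distance `t`, with the linear one beyond `θ / p` -/
def Sur (θ c p t : ℝ) (A B : ℝ≥0∞) : Prop :=
  A * ENNReal.ofReal (1 + c * t / p) ≤ B ∧ (θ / p ≤ t → A * ENNReal.ofReal (1 + c * t) ≤ B)

lemma one_add_le {x a : ℝ} {A B : ℝ≥0∞} (h : A * ENNReal.ofReal (Real.exp a) ≤ B) (hx : x ≤ a) :
    A * ENNReal.ofReal (1 + x) ≤ B := by
  refine le_trans ?_ h
  gcongr
  have := Real.add_one_le_exp a
  linarith

/-- the tangent line step with surplus -/
lemma cmpQ {n : ℕ} {p : ℝ} (hp : 0 < p) {K : Set (Fin n → ℝ)} (hK : IsCompact K)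
    (hi : (interior K).Nonempty) (hKS : K ⊆ SL n (1 + sm p)) {a : ℝ} (ha0 : 0 ≤ a)
    (ha1 : a < 1) (e3 : (volume K).toReal / VS n = 1 - a) (hth : th n p K ≤ 1 - (p + 2) * a)
    (z : Fin n → ℝ) :
    Mp p (Sn n) * ENNReal.ofReal (Real.exp (a / (2 * p))) ≤ Mp p ((fun x => x - z) '' K) := by
  refine le_trans ?_ (jensen hp hK hi hKS z)
  have hκ : 0 < (volume K).toReal := vol_pos' hK hi
  have hV := VS_pos n
  have hθ := th_pos hp hK hi hKS
  have hN := Nf_pos (n := n) hp
  have hber : 1 - (p + 1) * a ≤ (1 - a) ^ (p + 1) := by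
    have h3 := one_add_mul_self_le_rpow_one_add (s := -a) (by linarith) (p := p + 1)
      (by linarith)
    have e : 1 + -a = 1 - a := by ring
    rw [e] at h3
    linarith
  have h1a : 0 < 1 - a := by linarith
  have hE : Real.exp (a / 2) ≤ 1 + a := by
    have h1 := Real.abs_exp_sub_one_le (x := a / 2) (by rw [abs_of_nonneg (by positivity)]; linarith)
    rw [abs_of_nonneg (a := a / 2) (by positivity)] at h1
    have h2 := (abs_le.1 h1).2
    linarith
  -- `th * exp (a / 2) ≤ (1 - a) ^ (p + 1)`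
  have hkey : th n p K * Real.exp (a / 2) ≤ (1 - a) ^ (p + 1) := by
    refine le_trans ?_ hber
    have h1 : th n p K * Real.exp (a / 2) ≤ (1 - (p + 2) * a) * (1 + a) := by
      have h2 : 0 ≤ 1 - (p + 2) * a := hθ.le.trans hth
      exact mul_le_mul hth hE (Real.exp_pos _).le h2
    nlinarith [mul_nonneg (mul_nonneg (by linarith : (0:ℝ) ≤ p + 2) ha0) ha0]
  have hθ' : 0 < th n p K * Real.exp (a / 2) := by positivity
  have h1 := cmp_aux hp hV h1a hθ' hkey
  rw [Mp_Sn hp, ← ENNReal.ofReal_mul (by positivity)]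
  apply ENNReal.ofReal_le_ofReal
  have e4 : (volume K).toReal = VS n * (1 - a) := by
    rw [← e3, mul_div_cancel₀ _ hV.ne']
  rw [e4]
  have e5 : (th n p K * Real.exp (a / 2)) ^ (-(1 / p)) =
      th n p K ^ (-(1 / p)) * Real.exp (-(a / (2 * p))) := by
    rw [Real.mul_rpow hθ.le (Real.exp_pos _).le, ← Real.exp_mul]
    congr 2
    field_simp
  rw [e5] at h1
  have h2 : Real.exp (-(a / (2 * p))) * Real.exp (a / (2 * p)) = 1 := by
    rw [← Real.exp_add]; simp
  calc VS n * (VS n ^ (1 / p) * Nf n p) * Real.exp (a / (2 * p))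
      = (VS n * VS n ^ (1 / p)) * (Nf n p * Real.exp (a / (2 * p))) := by ring
    _ ≤ (VS n * (1 - a) * ((VS n * (1 - a)) ^ (1 / p) *
        (th n p K ^ (-(1 / p)) * Real.exp (-(a / (2 * p)))))) *
        (Nf n p * Real.exp (a / (2 * p))) := by gcongr
    _ = VS n * (1 - a) * ((VS n * (1 - a)) ^ (1 / p) * (th n p K ^ (-(1 / p)) * Nf n p)) *
        (Real.exp (-(a / (2 * p))) * Real.exp (a / (2 * p))) := by ring
    _ = _ := by rw [h2, mul_one]

/-- the volume of a body which contains a dilate of the simplex -/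
lemma vol_ge {n : ℕ} {K : Set (Fin n → ℝ)} (hK : NB K) {δ : ℝ} (hδ : 0 ≤ δ)
    (hg : ∀ x ∈ Sn n, gauge K x ≤ 1 + δ) : VS n ≤ (1 + δ) ^ n * (volume K).toReal := by
  have h1 : (1 + δ)⁻¹ • Sn n ⊆ K := by
    rintro _ ⟨x, hx, rfl⟩
    rw [mem_gauge hK]
    show gauge K ((1 + δ)⁻¹ • x) ≤ 1
    rw [gauge_smul_of_nonneg (by positivity), smul_eq_mul, inv_mul_le_iff₀ (by linarith)]
    have := hg x hx
    linarith
  have h2 := ENNReal.toReal_mono hK.comp.measure_lt_top.ne (measure_mono (μ := volume) h1)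
  rw [Measure.addHaar_smul, ENNReal.toReal_mul, Module.finrank_fin_fun,
    abs_of_nonneg (by positivity), ENNReal.toReal_ofReal (by positivity)] at h2
  have h3 : (volume (Sn n)).toReal = VS n := rfl
  rw [h3, inv_pow] at h2
  have h4 : 0 < (1 + δ) ^ n := by positivity
  rw [inv_mul_le_iff₀ h4] at h2
  exact h2

theorem normQ {m : ℕ} (hI : S_lin m) (hII : S_reg2Q m) (θ : ℝ) (hθ : 0 < θ) :
    ∃ ε0 p0 c : ℝ, 0 < ε0 ∧ 1 ≤ p0 ∧ 0 < c ∧ ∀ p : ℝ, p0 ≤ p →
      ∀ K : Set (Fin (m + 1) → ℝ), NB K → K ⊆ Sn (m + 1) →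
      (∀ x ∈ Sn (m + 1), gauge K x ≤ 1 + ε0) →
      (∀ i : Fin (m + 2), R (Equiv.swap 0 i) (jj 0) ∈ K) →
      ∀ t : ℝ, 0 ≤ t → t ≤ 1 → (1 + t) * (volume K).toReal < VS (m + 1) →
      ∀ z : Fin (m + 1) → ℝ, Sur θ c p t (Mp p (Sn (m + 1))) (Mp p ((fun x => x - z) '' K)) := by
  obtain ⟨ε1, p1, hε1, hp1, hI⟩ := hI
  set n : ℝ := (m : ℝ) + 1 with hn
  have hm0 : (0:ℝ) ≤ m := Nat.cast_nonneg m
  have hn1 : 1 ≤ n := by rw [hn]; linarith
  set ε2 : ℝ := min ε1 (θ / (4 * n)) with hε2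
  have hε20 : 0 < ε2 := by positivity
  have hε21 : ε2 ≤ ε1 := min_le_left _ _
  have hε2θ : ε2 ≤ θ / (4 * n) := min_le_right _ _
  obtain ⟨c1, ε0, p2, hc1, hε0, hp2, hII⟩ := hII ε2 hε20
  refine ⟨min ε0 (1 / n), max (max p1 p2) 1, min (1 / 4) (c1 / (2 * n)), by positivity,
    le_max_right _ _, by positivity, ?_⟩
  intro p hpp K hK hKS hg hcen t ht0 ht1 htv z
  have hpp1 : p1 ≤ p := ((le_max_left _ _).trans (le_max_left _ _)).trans hpp
  have hpp2 : p2 ≤ p := ((le_max_right _ _).trans (le_max_left _ _)).trans hpp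
  have hp1' : 1 ≤ p := (le_max_right _ _).trans hpp
  have hp : 0 < p := by linarith
  have hcq : min (1 / 4) (c1 / (2 * n)) ≤ 1 / 4 := min_le_left _ _
  have hcc : min (1 / 4) (c1 / (2 * n)) ≤ c1 / (2 * n) := min_le_right _ _
  obtain ⟨i0, -, hi0⟩ := Finset.exists_max_image (Finset.univ : Finset (Fin (m + 2)))
    (fun i => gauge K (vx (m + 1) i)) ⟨0, Finset.mem_univ _⟩
  set δ := gauge K (vx (m + 1) i0) - 1 with hδ
  have hgS : ∀ x ∈ Sn (m + 1), gauge K x ≤ 1 + δ := by
    intro x hx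
    refine gauge_le_max hK (fun i => ?_) hx
    have := hi0 i (Finset.mem_univ i)
    rw [hδ]
    linarith
  have hV := VS_pos (m + 1)
  have hκ : 0 < (volume K).toReal := vol_pos' hK.comp ⟨0, hK.zero⟩
  have h3 : δ ≤ min ε0 (1 / n) := by
    have := hg (vx (m + 1) i0) (vx_mem i0)
    rw [hδ]
    linarith
  have h3a : δ ≤ ε0 := h3.trans (min_le_left _ _)
  have h3b : δ ≤ 1 / n := h3.trans (min_le_right _ _)
  -- `δ` is nonnegative
  have hδ0 : 0 ≤ δ := by
    by_contra hcon
    push Not at hcon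
    have h4 := vol_ge (n := m + 1) hK (δ := 0) le_rfl (fun x hx => (hgS x hx).trans (by linarith))
    rw [add_zero, one_pow, one_mul] at h4
    nlinarith
  -- `t ≤ 2 n δ`
  have htδ : t < 2 * n * δ := by
    have h4 := vol_ge hK hδ0 hgS
    have h5 : (1 + t) * (volume K).toReal < (1 + δ) ^ (m + 1) * (volume K).toReal :=
      lt_of_lt_of_le htv h4
    have h6 : 1 + t < (1 + δ) ^ (m + 1) := lt_of_mul_lt_mul_right h5 hκ.le
    have h7 : (1 + δ) ^ (m + 1) ≤ Real.exp (n * δ) := by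
      have h8 : 1 + δ ≤ Real.exp δ := by linarith [Real.add_one_le_exp δ]
      calc (1 + δ) ^ (m + 1) ≤ (Real.exp δ) ^ (m + 1) := by gcongr
        _ = Real.exp (n * δ) := by
          rw [← Real.exp_nat_mul]
          congr 1
          rw [hn]
          push_cast
          ring
    have hnδ : n * δ ≤ 1 := by
      rw [le_div_iff₀ (by linarith)] at h3b
      linarith
    have h9 := Real.abs_exp_sub_one_le (x := n * δ) (by
      rw [abs_of_nonneg (by positivity)]; exact hnδ)
    rw [abs_of_nonneg (a := n * δ) (by positivity)] at h9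
    have h10 := (abs_le.1 h9).2
    linarith
  by_cases hc : δ ≤ ε2 / p
  · have h1 := hI p hpp1 K hK hKS (fun x hx => (hgS x hx).trans (by
      have : ε2 / p ≤ ε1 / p := by gcongr
      linarith)) hcen
    have hsub : Sn (m + 1) ⊆ SL (m + 1) (1 + sm p) := by
      rw [← SL_one]; exact SL_mono (by linarith [sm_pos hp])
    have hKsub := hKS.trans hsub
    have hwi : IntegrableOn (wt (m + 1) p) (Sn (m + 1)) :=
      ((wt_cont hp).mono hsub).integrableOn_compact NB_Sn.comp
    have e1 : ∫ x in K, wt (m + 1) p x = VS (m + 1) - ∫ x in Sn (m + 1) \ K, wt (m + 1) p x := by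
      have h2 := setIntegral_sdiff hK.comp.measurableSet hwi hKS
      rw [th_one hp] at h2
      linarith
    set d : ℝ := (volume (Sn (m + 1) \ K)).toReal with hd
    have hd0 : 0 ≤ d := ENNReal.toReal_nonneg
    have e2 : (volume K).toReal = VS (m + 1) - d := by
      have h2 := measureReal_sdiff (μ := volume) hKS hK.comp.measurableSet
        (NB_Sn (n := m + 1)).comp.measure_lt_top.ne
      have h3 : volume.real (Sn (m + 1) \ K) = d := rfl
      have h4 : volume.real (Sn (m + 1)) = VS (m + 1) := rfl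
      have h5 : volume.real K = (volume K).toReal := rfl
      rw [h3, h4, h5] at h2
      linarith
    set a : ℝ := d / VS (m + 1) with ha
    have ha0 : 0 ≤ a := by positivity
    have ha1 : a < 1 := by rw [ha, div_lt_one hV]; linarith
    have e3 : (volume K).toReal / VS (m + 1) = 1 - a := by
      rw [e2, ha, sub_div, div_self hV.ne']
    have hth : th (m + 1) p K ≤ 1 - (p + 2) * a := by
      unfold Pool.Agent.W679.B.th
      rw [e1, sub_div, div_self hV.ne', ha]
      have h3 : (p + 2) * (d / VS (m + 1)) ≤ (∫ x in Sn (m + 1) \ K, wt (m + 1) p x) / VS (m + 1) := by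
        rw [← mul_div_assoc]
        exact div_le_div_of_nonneg_right h1 hV.le
      linarith
    have hta : t / 2 ≤ a := by
      have h4 : (1 + t) * (1 - a) < 1 := by
        rw [← e3, ← mul_div_assoc, div_lt_one hV]
        exact htv
      nlinarith
    have hmain := cmpQ hp hK.comp ⟨0, hK.zero⟩ hKsub ha0 ha1 e3 hth z
    refine ⟨one_add_le hmain ?_, fun htθ => ?_⟩
    · calc min (1 / 4) (c1 / (2 * n)) * t / p ≤ (1 / 4) * t / p := by gcongr
        _ = (t / 2) / (2 * p) := by ring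
        _ ≤ a / (2 * p) := by gcongr
    · exfalso
      have h4 : 2 * n * δ ≤ 2 * n * (ε2 / p) := by gcongr
      have h5 : 2 * n * (ε2 / p) ≤ 2 * n * (θ / (4 * n) / p) := by gcongr
      have h6 : 2 * n * (θ / (4 * n) / p) = θ / p / 2 := by
        field_simp
        norm_num
      have h7 : 0 < θ / p := by positivity
      linarith
  · push Not at hc
    have h2 := hII p δ hpp2 hc.le h3a K hK hKS hgS ⟨i0, by rw [hδ]; ring⟩ hcen z
    have h4 : min (1 / 4) (c1 / (2 * n)) * t ≤ c1 * δ := by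
      calc min (1 / 4) (c1 / (2 * n)) * t ≤ c1 / (2 * n) * t := by gcongr
        _ ≤ c1 / (2 * n) * (2 * n * δ) := by gcongr
        _ = c1 * δ := by field_simp
    refine ⟨one_add_le h2 ?_, fun _ => one_add_le h2 h4⟩
    refine le_trans ?_ h4
    exact div_le_self (by positivity) hp1'

end Pool.Agent.X41.NS
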