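import Pool.Agent.TH649.LOC.All

set_option autoImplicit false

/-!
# The second regime near the simplex, with surplus

After `Pool/Agent/TH113/LOC_REG2.lean`.
-/

open MeasureTheory Set Filter
open scoped ENNReal Topology Matrix

namespace Pool.Agent.X41.NS

open Pool.Agent.H131R5.LM Pool.Agent.H131R5.LC Pool.Agent.W679.B
open Pool.Agent.W678.T3 (bc ZK mem_Sn_bc bc_smul bc_castSucc bc_sum bc_nonneg)
open Pool.Agent.TH649.LOC
open Pool.Agent.TH113.LOC_REG2 (cc_le_one main_est)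
open H801NS H801NS.TENS

/-- the second regime with surplus -/
def S_reg2Q (m : ℕ) : Prop := ∀ ε1 : ℝ, 0 < ε1 → ∃ c1 ε0 p0 : ℝ, 0 < c1 ∧ 0 < ε0 ∧ 0 < p0 ∧
  ∀ p δ : ℝ, p0 ≤ p → ε1 / p ≤ δ → δ ≤ ε0 →
  ∀ K : Set (Fin (m + 1) → ℝ), NB K → K ⊆ Sn (m + 1) →
    (∀ x ∈ Sn (m + 1), gauge K x ≤ 1 + δ) → (∃ i, gauge K (vx (m + 1) i) = 1 + δ) →
    (∀ i : Fin (m + 2), R (Equiv.swap 0 i) (jj 0) ∈ K) →
    ∀ z : Fin (m + 1) → ℝ, Mp p (Sn (m + 1)) * ENNReal.ofReal (Real.exp (c1 * δ)) ≤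
      Mp p ((fun x => x - z) '' K)

lemma fin_estQ {V v e t s p N : ℝ} (hV : 0 < V) (he1 : 0 < 1 - e) (e3 : v = V * (1 - e))
    (hN : 0 < N) (hmain : (1 + 1 / p) * (-Real.log (1 - e)) + s ≤ t) :
    V * (V ^ (1 / p) * N) * Real.exp s ≤ v * (v ^ (1 / p) * (Real.exp t * N)) := by
  rw [e3, Real.mul_rpow hV.le he1.le]
  have h2 : (1 - e) * (1 - e) ^ (1 / p) = Real.exp (-((1 + 1 / p) * (-Real.log (1 - e)))) := by
    have h3 : (1 - e) * (1 - e) ^ (1 / p) = (1 - e) ^ (1 + 1 / p) := by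
      rw [Real.rpow_add he1, Real.rpow_one]
    rw [h3, Real.rpow_def_of_pos he1]
    congr 1
    ring
  have h4 : Real.exp s ≤ (1 - e) * (1 - e) ^ (1 / p) * Real.exp t := by
    rw [h2, ← Real.exp_add]
    apply Real.exp_le_exp.2
    linarith
  have h5 : 0 < V * V ^ (1 / p) * N := by positivity
  calc V * (V ^ (1 / p) * N) * Real.exp s = V * V ^ (1 / p) * N * Real.exp s := by ring
    _ ≤ V * V ^ (1 / p) * N * ((1 - e) * (1 - e) ^ (1 / p) * Real.exp t) :=
        mul_le_mul_of_nonneg_left h4 h5.le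
    _ = _ := by ring

theorem reg2Q {m : ℕ} (hG : S_gain (m + 1)) (hL : S_loss m) : S_reg2Q m := by
  intro ε1 hε1
  obtain ⟨c, C, r0, hc0, hc1', hC, hr0', hL⟩ := hL
  obtain ⟨c2, hc2, hG⟩ := hG ε1 ((1 - c) / 2) hε1 (by linarith) (by linarith)
  -- half of the surplus is kept
  set c1 : ℝ := c2 / 2 with hc1d
  have hc1 : 0 < c1 := by positivity
  set r : ℝ := min r0 (c1 / (8 * C)) with hr
  have hr0 : 0 < r := lt_min hr0' (by positivity)
  have hr1 : r ≤ r0 := min_le_left _ _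
  have hr2 : r ≤ c1 / (8 * C) := min_le_right _ _
  obtain ⟨ε0, p1, hε0, hp1, hG⟩ := hG r hr0
  set κ : ℝ := (1 - c) / 6 with hκdef
  have hκ0 : 0 < κ := by rw [hκdef]; linarith
  have hκ1 : κ ≤ 1 / 6 := by rw [hκdef]; linarith
  set M : ℝ := (m : ℝ) + 1 + c1 / 4 with hM
  have hM0 : 0 < M := by positivity
  set δ2 : ℝ := κ / (2 * M) with hδ2def
  have hδ20 : 0 < δ2 := by positivity
  refine ⟨c1, min ε0 (min r δ2), max p1 (1 / κ), hc1, lt_min hε0 (lt_min hr0 hδ20),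
    lt_max_of_lt_left hp1, ?_⟩
  intro p δ hp hδp hδ K hK hKS hg hgi hcen z
  have hpp1 : p1 ≤ p := (le_max_left _ _).trans hp
  have hpκ : 1 / κ ≤ p := (le_max_right _ _).trans hp
  have hp0 : 0 < p := lt_of_lt_of_le (by positivity) hpκ
  have hδ1 : δ ≤ ε0 := hδ.trans (min_le_left _ _)
  have hδr : δ ≤ r := hδ.trans ((min_le_right _ _).trans (min_le_left _ _))
  have hδ2 : δ ≤ δ2 := hδ.trans ((min_le_right _ _).trans (min_le_right _ _))
  have hδ0 : 0 < δ := lt_of_lt_of_le (by positivity) hδp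
  have hcc0 := cc_pos (m + 1)
  have hcc1 := cc_le_one (m + 1)
  have hδcc : δ * cc (m + 1) ≤ r := by nlinarith
  have hδcc0 : 0 ≤ δ * cc (m + 1) := by positivity
  -- the minima
  let A : Fin (m + 2) → Set (Fin (m + 1) → ℝ) := fun i => {x | x ∈ K ∧ ∀ k, k ≠ i → bc x k ≤ r}
  have hAc : ∀ i, IsCompact (A i) := by
    intro i
    have h1 : A i = K ∩ ⋂ k : Fin (m + 2), ⋂ _ : k ≠ i, {x | bc x k ≤ r} := by
      ext x
      simp [A]
    rw [h1]
    refine hK.comp.inter_right (isClosed_iInter fun k => isClosed_iInter fun _ => ?_)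
    exact isClosed_le (bc_cont k) continuous_const
  have hxi : ∀ i, ((1 + δ)⁻¹ • vx (m + 1) i) ∈ K ∧
      ∀ k, k ≠ i → bc ((1 + δ)⁻¹ • vx (m + 1) i) k ≤ δ * cc (m + 1) := by
    intro i
    have hv : vx (m + 1) i ∈ Sn (m + 1) := by
      rw [mem_Sn_bc]
      intro k
      rw [bc_vx]
      split_ifs <;> norm_num
    constructor
    · rw [mem_gauge hK, gauge_smul_of_nonneg (by positivity), smul_eq_mul]
      have := hg _ hv
      rw [inv_mul_le_iff₀ (by linarith)]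
      linarith
    · intro k hk
      rw [bc_smul, bc_vx, if_neg hk, mul_zero, zero_add]
      have h1 : 1 - (1 + δ)⁻¹ ≤ δ := by
        have h2 : (1 + δ) * (1 + δ)⁻¹ = 1 := mul_inv_cancel₀ (by linarith)
        have h3 : (1 + δ)⁻¹ ≤ 1 := inv_le_one_of_one_le₀ (by linarith)
        nlinarith
      exact mul_le_mul_of_nonneg_right h1 hcc0.le
  have hAn : ∀ i, (A i).Nonempty := fun i =>
    ⟨_, (hxi i).1, fun k hk => ((hxi i).2 k hk).trans hδcc⟩
  have hmin : ∀ i j, ∃ x ∈ A i, ∀ y ∈ A i, bc x j ≤ bc y j := by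
    intro i j
    obtain ⟨x, hx, hx2⟩ := (hAc i).exists_isMinOn (hAn i) (bc_cont j).continuousOn
    exact ⟨x, hx, fun y hy => hx2 hy⟩
  choose X hX1 hX2 using hmin
  let h : Fin (m + 2) → Fin (m + 2) → ℝ := fun i j => if j = i then 0 else bc (X i j) j
  have hh : ∀ i j, j ≠ i → h i j = bc (X i j) j := fun i j hij => if_neg hij
  have hh0 : ∀ i j, 0 ≤ h i j := by
    intro i j
    by_cases hij : j = i
    · show 0 ≤ if j = i then 0 else bc (X i j) j
      rw [if_pos hij]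
    · rw [hh i j hij]
      exact bc_nonneg (hKS (hX1 i j).1) j
  have hh4 : ∀ i j, h i j ≤ δ * cc (m + 1) := by
    intro i j
    by_cases hij : j = i
    · show (if j = i then 0 else bc (X i j) j) ≤ δ * cc (m + 1)
      rw [if_pos hij]
      exact hδcc0
    · rw [hh i j hij]
      exact (hX2 i j _ ⟨(hxi i).1, fun k hk => ((hxi i).2 k hk).trans hδcc⟩).trans
        ((hxi i).2 j hij)
  have hgain := hG p δ hpp1 hδp hδ1 K hK hKS hg hgi h hh0 hh4
    (fun i x hx hk j hij => by rw [hh i j hij]; exact hX2 i j x ⟨hx, hk⟩) z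
  have hloss := hL r δ hr0 hr1 hδ0 (hδr.trans hr1) K hK hKS hg hcen h hh0 hh4
    (fun i j hij => ⟨X i j, (hX1 i j).1, by rw [hh i j hij], (hX1 i j).2⟩)
  set SH : ℝ := ∑ i, ∑ j ∈ Finset.univ.erase i, h i j with hSH
  have hSH0 : 0 ≤ SH := Finset.sum_nonneg fun i _ => Finset.sum_nonneg fun j _ => hh0 i j
  have hSH3 : SH ≤ ((m : ℝ) + 1) * δ := by
    have h1 : SH ≤ ∑ i : Fin (m + 2), ∑ j ∈ Finset.univ.erase i, δ * cc (m + 1) :=
      Finset.sum_le_sum fun i _ => Finset.sum_le_sum fun j _ => hh4 i j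
    have h2 : ∑ i : Fin (m + 2), ∑ j ∈ Finset.univ.erase i, δ * cc (m + 1) =
        ((m : ℝ) + 1) * δ := by
      have h3 := cc_succ m
      have h4 : (m + 2 - 1 : ℕ) = m + 1 := by omega
      simp only [Finset.sum_const, Finset.card_erase_of_mem (Finset.mem_univ _), Finset.card_univ,
        Fintype.card_fin, nsmul_eq_mul, h4]
      push_cast
      linear_combination ((m : ℝ) + 1) * δ * h3
    linarith
  -- volumes
  have hV := VS_pos (m + 1)
  set d : ℝ := (volume (Sn (m + 1) \ K)).toReal with hd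
  have hd0 : 0 ≤ d := ENNReal.toReal_nonneg
  have e2 : (volume K).toReal = VS (m + 1) - d := by
    have h2 := measureReal_sdiff (μ := volume) hKS hK.comp.measurableSet
      (NB_Sn (n := m + 1)).comp.measure_lt_top.ne
    have h3 : volume.real (Sn (m + 1) \ K) = d := rfl
    have h4 : volume.real (Sn (m + 1)) = VS (m + 1) := rfl
    have h5 : volume.real K = (volume K).toReal := rfl
    rw [h3, h4, h5] at h2
    linarith
  have hκK : 0 < (volume K).toReal := vol_pos' hK.comp ⟨0, hK.zero⟩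
  set e : ℝ := d / VS (m + 1) with he
  have he0 : 0 ≤ e := by positivity
  have hed : VS (m + 1) * e = d := by rw [he]; field_simp
  have e3 : (volume K).toReal = VS (m + 1) * (1 - e) := by rw [e2, ← hed]; ring
  have heub : e ≤ c * SH + C * (δ * (r + δ)) := by
    rw [he, div_le_iff₀ hV]
    linarith
  have hMM : SH + δ * (c1 / 4) ≤ δ * M := by
    rw [hM]
    linarith
  have hδM : δ * M ≤ κ / 2 := by
    have h1 : δ * M ≤ δ2 * M := mul_le_mul_of_nonneg_right hδ2 hM0.le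
    have h2 : δ2 * M = κ / 2 := by
      rw [hδ2def]
      field_simp
    linarith
  obtain ⟨he1, hmain⟩ := main_est hc0 hc1' hC hc1 hκdef hMM hr2 hδr hδ0 hδM hpκ hp0 hSH0 he0 heub
  refine le_trans ?_ hgain
  rw [Mp_Sn hp0]
  have hN := Nf_pos (n := m + 1) hp0
  rw [← ENNReal.ofReal_mul (by positivity)]
  apply ENNReal.ofReal_le_ofReal
  have h9 : c2 = 2 * c1 := by rw [hc1d]; ring
  refine fin_estQ hV he1 e3 hN ?_
  rw [h9]
  linarith

end Pool.Agent.X41.NS
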